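import Mathlib

/-! The field with four elements, with decidable operations, and an additive MRD code in
`M_3(F_4)`. -/

set_option autoImplicit false

namespace Pool.Agent.X258.MRD

/-- The field with four elements: `⟨a, b⟩` stands for `a + b ω` with `ω² = ω + 1`. -/
@[ext] structure F4 where
  /-- the constant coefficient -/
  a : ZMod 2
  /-- the coefficient of `ω` -/
  b : ZMod 2
deriving DecidableEq, Fintype

namespace F4

instance : Zero F4 := ⟨⟨0, 0⟩⟩
instance : One F4 := ⟨⟨1, 0⟩⟩
instance : Add F4 := ⟨fun x y => ⟨x.a + y.a, x.b + y.b⟩⟩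
instance : Neg F4 := ⟨fun x => x⟩
instance : Mul F4 := ⟨fun x y => ⟨x.a * y.a + x.b * y.b, x.a * y.b + x.b * y.a + x.b * y.b⟩⟩
instance : Inv F4 := ⟨fun x => ⟨x.a + x.b, x.b⟩⟩

instance : CommRing F4 where
  add_assoc := by decide
  zero_add := by decide
  add_zero := by decide
  add_comm := by decide
  neg_add_cancel := by decide
  mul_assoc := by decide
  one_mul := by decide
  mul_one := by decide
  left_distrib := by decide
  right_distrib := by decide
  mul_comm := by decide
  zero_mul := by decide
  mul_zero := by decide
  nsmul := nsmulRec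
  zsmul := zsmulRec

instance : Field F4 where
  mul_inv_cancel := by decide
  inv_zero := by decide
  exists_pair_ne := ⟨0, 1, by decide⟩
  nnqsmul := _
  nnqsmul_def := fun _ _ => rfl
  qsmul := _
  qsmul_def := fun _ _ => rfl

theorem card_eq : Fintype.card F4 = 4 := by decide

/-- the generator -/
def om : F4 := ⟨0, 1⟩

/-- the Frobenius map `x ↦ x²` -/
def bar (x : F4) : F4 := ⟨x.a + x.b, x.b⟩

theorem bar_eq : ∀ x : F4, bar x = x * x := by decide

theorem bar_add : ∀ x y : F4, bar (x + y) = bar x + bar y := by decide

theorem bar_neg : ∀ x : F4, bar (-x) = -bar x := by decide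

theorem key : ∀ x y : F4, om * (bar x + y) = bar (om * x) + om * y → x = 0 := by decide

end F4

end Pool.Agent.X258.MRD
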