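import Mathlib
import Pool.Agent.X258.MRD.F4

/-! An additive MRD code in `M_3(F_4)` with minimum distance two in which no invertible matrix has
all its scalar multiples. -/

set_option autoImplicit false

namespace Pool.Agent.X258.MRD

open Matrix F4

/-- The code: matrices with columns `x`, `Q x̄ + M y`, `y`. -/
def code3 : AddSubgroup (Matrix (Fin 3) (Fin 3) F4) where
  carrier := {X | X 0 1 = bar (X 1 0) + X 2 2 ∧ X 1 1 = bar (X 1 0) + bar (X 2 0) + (X 0 2 + X 2 2) ∧
    X 2 1 = bar (X 0 0) + bar (X 2 0) + X 1 2}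
  add_mem' := by
    rintro X Y ⟨h1, h2, h3⟩ ⟨k1, k2, k3⟩
    refine ⟨?_, ?_, ?_⟩
    · simp only [Matrix.add_apply, bar_add, h1, k1]; ring
    · simp only [Matrix.add_apply, bar_add, h2, k2]; ring
    · simp only [Matrix.add_apply, bar_add, h3, k3]; ring
  zero_mem' := by
    refine ⟨?_, ?_, ?_⟩ <;> decide
  neg_mem' := by
    rintro X ⟨h1, h2, h3⟩
    refine ⟨?_, ?_, ?_⟩
    · simp only [Matrix.neg_apply, bar_neg, h1]; ring
    · simp only [Matrix.neg_apply, bar_neg, h2]; ring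
    · simp only [Matrix.neg_apply, bar_neg, h3]; ring

theorem mem_code3 {X : Matrix (Fin 3) (Fin 3) F4} : X ∈ code3 ↔
    X 0 1 = bar (X 1 0) + X 2 2 ∧ X 1 1 = bar (X 1 0) + bar (X 2 0) + (X 0 2 + X 2 2) ∧
    X 2 1 = bar (X 0 0) + bar (X 2 0) + X 1 2 := Iff.rfl

/-- the code is parametrised by its first and last columns -/
def code3Equiv : code3 ≃ (Fin 3 → F4) × (Fin 3 → F4) where
  toFun X := (fun i => X.1 i 0, fun i => X.1 i 2)
  invFun p := ⟨!![p.1 0, bar (p.1 1) + p.2 2, p.2 0;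
    p.1 1, bar (p.1 1) + bar (p.1 2) + (p.2 0 + p.2 2), p.2 1;
    p.1 2, bar (p.1 0) + bar (p.1 2) + p.2 1, p.2 2], by
      rw [mem_code3]; exact ⟨rfl, rfl, rfl⟩⟩
  left_inv X := by
    obtain ⟨X, hX⟩ := X
    obtain ⟨h1, h2, h3⟩ := mem_code3.1 hX
    apply Subtype.ext
    apply Matrix.ext; intro i j
    fin_cases i <;> fin_cases j <;> first | rfl | exact h1.symm | exact h2.symm | exact h3.symm
  right_inv p := by
    apply Prod.ext
    · ext i : 1
      fin_cases i <;> rfl
    · ext i : 1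
      fin_cases i <;> rfl

theorem card_code3 : Nat.card code3 = 4 ^ 6 := by
  rw [Nat.card_congr code3Equiv, Nat.card_prod, Nat.card_eq_fintype_card, Fintype.card_fun,
    card_eq, Fintype.card_fin]
  norm_num

/-- no nonzero matrix of rank one satisfies the equations -/
theorem no_rank_one : ∀ z : Fin 3 → F4, ∀ c : Fin 3 → F4, z ≠ 0 → c ≠ 0 →
    ¬ (c 1 * z 0 = bar (c 0 * z 1) + c 2 * z 2 ∧
      c 1 * z 1 = bar (c 0 * z 1) + bar (c 0 * z 2) + (c 2 * z 0 + c 2 * z 2) ∧
      c 1 * z 2 = bar (c 0 * z 0) + bar (c 0 * z 2) + c 2 * z 1) := by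
  decide +kernel

theorem two_le_rank3 {X : Matrix (Fin 3) (Fin 3) F4} (hX : X ∈ code3) (h0 : X ≠ 0) :
    2 ≤ X.rank := by
  by_contra hlt
  push Not at hlt
  obtain ⟨j0, hj0⟩ : ∃ j, X.col j ≠ 0 := by
    by_contra hall
    push Not at hall
    exact h0 (Matrix.ext fun i j => congrFun (hall j) i)
  set z : Fin 3 → F4 := X.col j0 with hz
  have hrk : Module.finrank F4 (Submodule.span F4 (Set.range X.col)) ≤ 1 := by
    rw [← Matrix.rank_eq_finrank_span_cols]; omega
  have hmem : z ∈ Submodule.span F4 (Set.range X.col) := Submodule.subset_span ⟨j0, rfl⟩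
  have hone : Module.finrank F4 (Submodule.span F4 (Set.range X.col)) = 1 := by
    have : 0 < Module.finrank F4 (Submodule.span F4 (Set.range X.col)) := by
      have : Nontrivial (Submodule.span F4 (Set.range X.col)) :=
        ⟨⟨⟨z, hmem⟩, 0, fun h => hj0 (congrArg Subtype.val h)⟩⟩
      exact Module.finrank_pos
    omega
  have hall : ∀ j, ∃ c : F4, c • z = X.col j := by
    intro j
    obtain ⟨c, hc⟩ := (finrank_eq_one_iff_of_nonzero' (⟨z, hmem⟩ : Submodule.span F4
      (Set.range X.col)) (fun h => hj0 (congrArg Subtype.val h))).1 hone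
      ⟨X.col j, Submodule.subset_span ⟨j, rfl⟩⟩
    exact ⟨c, congrArg Subtype.val hc⟩
  choose c hc using hall
  have hcj : c ≠ 0 := by
    intro h
    have := hc j0
    rw [h, Pi.zero_apply, zero_smul] at this
    exact hj0 this.symm
  have hent : ∀ i j, X i j = c j * z i := fun i j => (congrFun (hc j) i).symm
  obtain ⟨h1, h2, h3⟩ := mem_code3.1 hX
  simp only [hent] at h1 h2 h3
  exact no_rank_one z c hj0 hcj ⟨h1, h2, h3⟩

/-- if `N` and `ω N` lie in the code then the first column of `N` is zero -/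
theorem first_col_zero {N : Matrix (Fin 3) (Fin 3) F4} (h : N ∈ code3) (h' : om • N ∈ code3) :
    ∀ i, N i 0 = 0 := by
  obtain ⟨h1, h2, h3⟩ := mem_code3.1 h
  obtain ⟨k1, k2, k3⟩ := mem_code3.1 h'
  simp only [Matrix.smul_apply, smul_eq_mul] at k1 k2 k3
  have e1 : N 1 0 = 0 := by
    apply F4.key (N 1 0) (N 2 2)
    rw [← h1]; exact k1
  have b0 : bar 0 = 0 := by decide
  have e2 : N 2 0 = 0 := by
    apply F4.key (N 2 0) (N 0 2 + N 2 2)
    rw [e1, b0, zero_add] at h2
    rw [← h2, k2, e1, mul_zero, b0, zero_add, mul_add]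
  have e0 : N 0 0 = 0 := by
    apply F4.key (N 0 0) (N 1 2)
    rw [e2, b0, add_zero] at h3
    rw [← h3, k3, e2, mul_zero, b0, add_zero]
  intro i
  fin_cases i
  · exact e0
  · exact e1
  · exact e2

theorem det_zero {N : Matrix (Fin 3) (Fin 3) F4} (h : N ∈ code3) (h' : om • N ∈ code3) :
    N.det = 0 :=
  Matrix.det_eq_zero_of_column_eq_zero 0 (first_col_zero h h')

end Pool.Agent.X258.MRD
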