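import Mathlib
import Pool.Agent.X258.MRD.Check

/-! An additive MRD code in `M_4(F_2)` with minimum distance 2 that contains no additive MRD code
with minimum distance 3. -/

namespace Pool.Agent.X258.MRD

open Matrix

/-- row vector with binary code `r` -/
def dec (r : ℕ) : Fin 4 → ZMod 2 := fun j => if r.testBit j then 1 else 0

theorem dec_xor (a b : ℕ) : dec (a ^^^ b) = dec a + dec b := by
  ext j
  simp only [dec, Nat.testBit_xor, Pi.add_apply]
  cases a.testBit j <;> cases b.testBit j <;> decide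

theorem dec_surj (v : Fin 4 → ZMod 2) : ∃ r : Fin 16, dec r = v := by
  revert v; decide

theorem dec_zero : dec 0 = 0 := by decide

theorem dec_ne : ∀ r : Fin 16, r ≠ 0 → dec r ≠ 0 := by decide

theorem dec_inj : ∀ r s : Fin 16, dec r = dec s → r = s := by decide

/-- the spread set: element with first row `v` -/
def dmat (v : Fin 4 → ZMod 2) : Matrix (Fin 4) (Fin 4) (ZMod 2) :=
  v 0 • !![1,0,0,0; 0,1,0,0; 0,0,1,0; 0,0,0,1] +
  v 1 • !![0,1,0,0; 0,0,1,1; 1,0,1,0; 1,0,0,0] +
  v 2 • !![0,0,1,0; 1,0,0,0; 1,1,1,1; 0,1,0,0] +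
  v 3 • !![0,0,0,1; 0,0,1,0; 1,0,0,1; 0,1,1,0]

theorem dmat_dec' : ∀ p : Fin 16 × Fin 4 × Fin 4,
    dmat (dec p.1) p.2.1 p.2.2 = dec (rc p.2.1 p.1) p.2.2 := by
  decide +kernel

theorem dmat_dec (v : Fin 16) (i : Fin 4) : dmat (dec v) i = dec (rc i v) :=
  funext fun j => dmat_dec' (v, i, j)

theorem dmat_add (u v : Fin 4 → ZMod 2) : dmat (u + v) = dmat u + dmat v := by
  simp only [dmat, Pi.add_apply, add_smul]
  abel

/-- trace pairing -/
def pair (M N : Matrix (Fin 4) (Fin 4) (ZMod 2)) : ZMod 2 := ∑ i, ∑ j, M i j * N i j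

theorem pair_add_left (M M' N : Matrix (Fin 4) (Fin 4) (ZMod 2)) :
    pair (M + M') N = pair M N + pair M' N := by
  simp only [pair, Matrix.add_apply, add_mul, Finset.sum_add_distrib]

theorem pair_add_right (M N N' : Matrix (Fin 4) (Fin 4) (ZMod 2)) :
    pair M (N + N') = pair M N + pair M N' := by
  simp only [pair, Matrix.add_apply, mul_add, Finset.sum_add_distrib]

theorem pair_smul_left (c : ZMod 2) (M N : Matrix (Fin 4) (Fin 4) (ZMod 2)) :
    pair (c • M) N = c * pair M N := by
  simp only [pair, Matrix.smul_apply, smul_eq_mul, mul_assoc, Finset.mul_sum]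

/-- the pairing with the four basis elements of the spread set -/
def phi : Matrix (Fin 4) (Fin 4) (ZMod 2) →ₗ[ZMod 2] (Fin 4 → ZMod 2) where
  toFun M := fun k => pair M (dmat (Pi.single k 1))
  map_add' M N := by ext k; simp [pair_add_left]
  map_smul' c M := by ext k; simp [pair_smul_left]

/-- the code: the orthogonal complement of the spread set -/
def code : Submodule (ZMod 2) (Matrix (Fin 4) (Fin 4) (ZMod 2)) := LinearMap.ker phi

theorem mem_code_pair {M : Matrix (Fin 4) (Fin 4) (ZMod 2)} (hM : M ∈ code)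
    (v : Fin 4 → ZMod 2) : pair M (dmat v) = 0 := by
  have h : ∀ k, pair M (dmat (Pi.single k 1)) = 0 := by
    intro k
    have := LinearMap.mem_ker.1 hM
    exact congrFun this k
  have key : ∀ s : Finset (Fin 4), pair M (dmat (∑ k ∈ s, Pi.single k (v k))) = 0 := by
    intro s
    induction s using Finset.induction_on with
    | empty =>
      have : dmat (∑ k ∈ (∅ : Finset (Fin 4)), Pi.single k (v k)) = 0 := by
        rw [Finset.sum_empty]; decide
      rw [this]; simp [pair]
    | insert a s ha ih =>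
      rw [Finset.sum_insert ha, dmat_add, pair_add_right, ih, add_zero]
      have hv : v a = 0 ∨ v a = 1 := by
        generalize v a = x; revert x; decide
      rcases hv with hv | hv
      · rw [hv]
        have : dmat (Pi.single a 0) = 0 := by rw [Pi.single_zero]; decide
        rw [this]; simp [pair]
      · rw [hv]; exact h a
  have := key Finset.univ
  rwa [Finset.univ_sum_single] at this

theorem phi_surj : Function.Surjective phi := by
  intro t
  refine ⟨fun i j => if i = 0 then t j else 0, ?_⟩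
  ext k
  revert t k
  decide

theorem card_code : Nat.card code = 2 ^ 12 := by
  have h1 := LinearMap.finrank_range_add_finrank_ker phi
  rw [LinearMap.range_eq_top.2 phi_surj, finrank_top, Module.finrank_fin_fun,
    Module.finrank_matrix] at h1
  simp only [Fintype.card_fin, Module.finrank_self] at h1
  have h2 : Module.finrank (ZMod 2) code = 12 := by
    change Module.finrank (ZMod 2) (LinearMap.ker phi) = 12
    omega
  rw [Module.natCard_eq_pow_finrank (K := ZMod 2), h2, Nat.card_zmod]


/-- every matrix over `F_2` of rank at most one in `code` is zero -/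
theorem two_le_rank {M : Matrix (Fin 4) (Fin 4) (ZMod 2)} (hM : M ∈ code) (h0 : M ≠ 0) :
    2 ≤ M.rank := by
  by_contra hlt
  push Not at hlt
  -- a nonzero row
  obtain ⟨i0, hi0⟩ : ∃ i, M i ≠ 0 := by
    by_contra hall
    push Not at hall
    exact h0 (by ext i j; exact congrFun (hall i) j)
  set w : Fin 4 → ZMod 2 := M i0 with hw
  have hrk : Module.finrank (ZMod 2) (Submodule.span (ZMod 2) (Set.range M.row)) ≤ 1 := by
    rw [← Matrix.rank_eq_finrank_span_row]; omega
  have hwmem : w ∈ Submodule.span (ZMod 2) (Set.range M.row) :=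
    Submodule.subset_span ⟨i0, rfl⟩
  have hpos : Module.finrank (ZMod 2) (Submodule.span (ZMod 2) (Set.range M.row)) = 1 := by
    have : 0 < Module.finrank (ZMod 2) (Submodule.span (ZMod 2) (Set.range M.row)) := by
      have : Nontrivial (Submodule.span (ZMod 2) (Set.range M.row)) :=
        ⟨⟨⟨w, hwmem⟩, 0, fun h => hi0 (congrArg Subtype.val h)⟩⟩
      exact Module.finrank_pos
    omega
  have hall : ∀ i, ∃ c : ZMod 2, c • w = M i := by
    intro i
    have := (finrank_eq_one_iff_of_nonzero' (⟨w, hwmem⟩ : Submodule.span (ZMod 2)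
      (Set.range M.row)) (fun h => hi0 (congrArg Subtype.val h))).1 hpos
      ⟨M i, Submodule.subset_span ⟨i, rfl⟩⟩
    obtain ⟨c, hc⟩ := this
    exact ⟨c, congrArg Subtype.val hc⟩
  choose c hc using hall
  have hci0 : c ≠ 0 := by
    intro h
    have := hc i0
    rw [h, Pi.zero_apply, zero_smul] at this
    exact hi0 this.symm
  have hkey : ∀ c w : Fin 4 → ZMod 2, c ≠ 0 → w ≠ 0 →
      ∃ k : Fin 4, (∑ i, ∑ j, c i * w j * dmat (Pi.single k 1) i j) ≠ 0 := by
    decide +kernel
  obtain ⟨k, hk⟩ := hkey c w hci0 hi0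
  apply hk
  have := mem_code_pair hM (Pi.single k 1)
  rw [← this]
  unfold pair
  refine Finset.sum_congr rfl fun i _ => Finset.sum_congr rfl fun j _ => ?_
  rw [← hc i]
  rfl

/-- a matrix whose kernel contains two distinct nonzero vectors has rank at most two -/
theorem rank_le_two {M : Matrix (Fin 4) (Fin 4) (ZMod 2)} {w1 w2 : Fin 4 → ZMod 2}
    (h1 : w1 ≠ 0) (h2 : w2 ≠ 0) (h12 : w1 ≠ w2) (e1 : M *ᵥ w1 = 0) (e2 : M *ᵥ w2 = 0) :
    M.rank ≤ 2 := by
  have hli : LinearIndependent (ZMod 2) ![w1, w2] := by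
    rw [LinearIndependent.pair_iff]
    intro s t hst
    have hz : ∀ x : ZMod 2, x = 0 ∨ x = 1 := by decide
    rcases hz s with rfl | rfl <;> rcases hz t with rfl | rfl
    · exact ⟨rfl, rfl⟩
    · exact absurd (by simpa using hst) h2
    · exact absurd (by simpa using hst) h1
    · exfalso
      apply h12
      rw [one_smul, one_smul] at hst
      have h3 : w2 + w2 = 0 := by
        ext j; exact CharTwo.add_self_eq_zero (w2 j)
      calc w1 = w1 + (w2 + w2) := by rw [h3, add_zero]
        _ = (w1 + w2) + w2 := by rw [add_assoc]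
        _ = w2 := by rw [hst, zero_add]
  have hker := LinearMap.finrank_range_add_finrank_ker M.mulVecLin
  have hle : 2 ≤ Module.finrank (ZMod 2) (LinearMap.ker M.mulVecLin) := by
    have hspan : Submodule.span (ZMod 2) (Set.range ![w1, w2]) ≤ LinearMap.ker M.mulVecLin := by
      rw [Submodule.span_le]
      rintro x ⟨i, rfl⟩
      fin_cases i
      · simpa using e1
      · simpa using e2
    have := Submodule.finrank_mono hspan
    rw [finrank_span_eq_card hli] at this
    simpa using this
  rw [Module.finrank_fin_fun] at hker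
  unfold Matrix.rank
  omega

/-- every matrix outside the spread set differs by an element of the spread set from a nonzero
matrix whose rows lie in a two-dimensional space -/
theorem cover (X : Matrix (Fin 4) (Fin 4) (ZMod 2)) (hX : ∀ v, X ≠ dmat v) :
    ∃ v w1 w2 : Fin 4 → ZMod 2, w1 ≠ 0 ∧ w2 ≠ 0 ∧ w1 ≠ w2 ∧
      ∃ α β : Fin 4 → ZMod 2, ∀ i, (X + dmat v) i = α i • w1 + β i • w2 := by
  classical
  choose r hr using fun i => dec_surj (X i)
  -- reduce to first row zero
  have hrow : ∀ i, (X + dmat (dec (r 0))) i = dec ((r i : ℕ) ^^^ rc i (r 0)) := by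
    intro i
    rw [dec_xor, ← dmat_dec (r 0) i, hr i]
    rfl
  have hlt : ∀ i : Fin 4, ((r i : ℕ) ^^^ rc i (r 0)) < 16 := by
    intro i
    refine Nat.xor_lt_two_pow (n := 4) (r i).2 ?_
    have : ∀ (i : Fin 4) (v : Fin 16), rc i v < 2 ^ 4 := by decide
    exact this i (r 0)
  set s : Fin 4 → Fin 16 := fun i => ⟨_, hlt i⟩ with hs
  have hrow' : ∀ i, (X + dmat (dec (r 0))) i = dec (s i) := hrow
  have hs0 : s 0 = 0 := by
    apply Fin.ext
    change ((r 0 : ℕ) ^^^ rc 0 (r 0)) = 0
    change ((r 0 : ℕ) ^^^ (r 0 : ℕ)) = 0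
    exact Nat.xor_self _
  rcases chk_all (s 1) (s 2) (s 3) with ⟨h1, h2, h3⟩ | h
  · exfalso
    apply hX (dec (r 0))
    have hz : X + dmat (dec (r 0)) = 0 := by
      ext i j
      rw [hrow' i]
      fin_cases i
      · change dec (s 0) j = 0
        rw [hs0]; exact congrFun dec_zero j
      · change dec (s 1) j = 0
        rw [h1]; exact congrFun dec_zero j
      · change dec (s 2) j = 0
        rw [h2]; exact congrFun dec_zero j
      · change dec (s 3) j = 0
        rw [h3]; exact congrFun dec_zero j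
    ext i j
    have := congrFun (congrFun hz i) j
    rw [Matrix.add_apply, Matrix.zero_apply] at this
    exact (CharTwo.add_eq_zero.1 this)
  · unfold chk at h
    simp only [Bool.and_eq_true, bne_iff_ne, ne_eq] at h
    obtain ⟨⟨⟨⟨⟨⟨⟨c1, c2⟩, c3⟩, c4⟩, k0⟩, k1⟩, k2⟩, k3⟩ := h
    set w := wit (s 1) (s 2) (s 3) with hw
    set v := w &&& 15 with hv
    set a := (w >>> 4) &&& 15 with ha
    set b := w >>> 8 with hb
    have hv16 : v < 16 := lt_of_le_of_lt Nat.and_le_right (by norm_num)
    have ha16 : a < 16 := lt_of_le_of_lt Nat.and_le_right (by norm_num)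
    have hb16 : b < 16 := lt_of_le_of_lt (Nat.le_of_ble_eq_true c4) (by norm_num)
    have key : ∀ r : ℕ, inSpan r a b = true → ∃ x y : ZMod 2, dec r = x • dec a + y • dec b := by
      intro r hr
      unfold inSpan at hr
      simp only [Bool.or_eq_true, beq_iff_eq] at hr
      rcases hr with ((hr | hr) | hr) | hr
      · exact ⟨0, 0, by rw [hr, dec_zero]; simp⟩
      · exact ⟨1, 0, by rw [hr]; simp⟩
      · exact ⟨0, 1, by rw [hr]; simp⟩
      · exact ⟨1, 1, by rw [hr, dec_xor]; simp⟩
    have hall : ∀ i : Fin 4, ∃ x y : ZMod 2,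
        (X + dmat (dec (r 0) + dec v)) i = x • dec a + y • dec b := by
      intro i
      have hi : (X + dmat (dec (r 0) + dec v)) i = dec ((s i : ℕ) ^^^ rc i v) := by
        rw [dec_xor, ← dmat_dec ⟨v, hv16⟩ i, ← hrow' i, dmat_add, ← add_assoc]
        rfl
      rw [hi]
      apply key
      fin_cases i
      · change inSpan ((s 0 : ℕ) ^^^ v) a b = true
        rw [hs0]
        change inSpan (0 ^^^ v) a b = true
        rw [Nat.zero_xor]; exact k0
      · exact k1
      · exact k2
      · exact k3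
    choose x y hxy using hall
    refine ⟨dec (r 0) + dec v, dec a, dec b, ?_, ?_, ?_, x, y, hxy⟩
    · exact dec_ne ⟨a, ha16⟩ (fun h => c1 (congrArg Fin.val h))
    · exact dec_ne ⟨b, hb16⟩ (fun h => c2 (congrArg Fin.val h))
    · intro h
      have := dec_inj ⟨a, ha16⟩ ⟨b, hb16⟩ h
      exact c3 (congrArg Fin.val this)

/-- `code` contains no additive MRD code with minimum distance three -/
theorem no_subcode (C' : AddSubgroup (Matrix (Fin 4) (Fin 4) (ZMod 2)))
    (hle : C' ≤ code.toAddSubgroup) (hcard : Nat.card C' = 2 ^ 8) :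
    ∃ M ∈ C', M ≠ 0 ∧ M.rank ≤ 2 := by
  by_contra hno
  push Not at hno
  set P : Submodule (ZMod 2) (Matrix (Fin 4) (Fin 4) (ZMod 2)) :=
    AddSubgroup.toZModSubmodule 2 C' with hP
  have hmem : ∀ M, M ∈ P ↔ M ∈ C' := fun M => AddSubgroup.mem_toZModSubmodule 2
  -- an element of the code outside the subcode
  obtain ⟨V, hV, hVP⟩ : ∃ V ∈ code, V ∉ P := by
    by_contra hall
    push Not at hall
    have heq : C' = code.toAddSubgroup := le_antisymm hle (fun M hM => (hmem M).1 (hall M hM))
    have h1 : Nat.card C' = Nat.card code := by rw [heq]; rfl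
    rw [hcard, card_code] at h1
    norm_num at h1
  obtain ⟨f, hfV, hfP⟩ := Submodule.exists_dual_map_eq_bot_of_notMem hVP inferInstance
  have hfC : ∀ M ∈ C', f M = 0 := by
    intro M hM
    have : f M ∈ P.map f := Submodule.mem_map_of_mem ((hmem M).2 hM)
    rw [hfP] at this
    simpa using this
  set X : Matrix (Fin 4) (Fin 4) (ZMod 2) := fun i j => f (Matrix.single i j 1) with hXdef
  have hfX : ∀ M, f M = pair M X := by
    intro M
    conv_lhs => rw [Matrix.matrix_eq_sum_single M]
    simp only [map_sum, pair]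
    refine Finset.sum_congr rfl fun i _ => Finset.sum_congr rfl fun j _ => ?_
    have : Matrix.single i j (M i j) = M i j • Matrix.single i j (1 : ZMod 2) := by
      rw [Matrix.smul_single, smul_eq_mul, mul_one]
    rw [this, map_smul, smul_eq_mul]
  have hXD : ∀ v, X ≠ dmat v := by
    intro v hv
    apply hfV
    rw [hfX, hv]
    exact mem_code_pair hV v
  obtain ⟨v, w1, w2, h1, h2, h12, α, β, hY⟩ := cover X hXD
  set Y := X + dmat v with hYdef
  have hY0 : ∃ i, α i ≠ 0 ∨ β i ≠ 0 := by
    by_contra hall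
    push Not at hall
    apply hXD v
    ext i j
    have := congrFun (hY i) j
    rw [(hall i).1, (hall i).2] at this
    simp only [zero_smul, add_zero, Pi.zero_apply] at this
    rw [hYdef, Matrix.add_apply] at this
    exact CharTwo.add_eq_zero.1 this
  have hpairY : ∀ M ∈ C', pair M Y = 0 := by
    intro M hM
    rw [hYdef, pair_add_right, ← hfX, hfC M hM, mem_code_pair (hle hM) v, add_zero]
  have hpair : ∀ M, pair M Y = α ⬝ᵥ (M *ᵥ w1) + β ⬝ᵥ (M *ᵥ w2) := by
    intro M
    simp only [pair, dotProduct, Matrix.mulVec, ← Finset.sum_add_distrib]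
    refine Finset.sum_congr rfl fun i _ => ?_
    rw [Finset.mul_sum, Finset.mul_sum, ← Finset.sum_add_distrib]
    refine Finset.sum_congr rfl fun j _ => ?_
    have : Y i j = α i * w1 j + β i * w2 j := congrFun (hY i) j
    rw [this]; ring
  -- the evaluation map is bijective
  let Φ : C' → (Fin 4 → ZMod 2) × (Fin 4 → ZMod 2) :=
    fun M => ((M : Matrix (Fin 4) (Fin 4) (ZMod 2)) *ᵥ w1,
      (M : Matrix (Fin 4) (Fin 4) (ZMod 2)) *ᵥ w2)
  have hinj : Function.Injective Φ := by
    intro M N hMN
    by_contra hne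
    have hsub : (M : Matrix (Fin 4) (Fin 4) (ZMod 2)) - (N : Matrix (Fin 4) (Fin 4) (ZMod 2)) ∈ C' :=
      C'.sub_mem M.2 N.2
    have hsub0 : (M : Matrix (Fin 4) (Fin 4) (ZMod 2)) - (N : Matrix (Fin 4) (Fin 4) (ZMod 2)) ≠ 0 := by
      intro h
      exact hne (Subtype.ext (sub_eq_zero.1 h))
    have := hno _ hsub hsub0
    have e1 : ((M : Matrix (Fin 4) (Fin 4) (ZMod 2)) - (N : Matrix (Fin 4) (Fin 4) (ZMod 2))) *ᵥ w1 = 0 := by
      rw [Matrix.sub_mulVec, sub_eq_zero]; exact congrArg Prod.fst hMN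
    have e2 : ((M : Matrix (Fin 4) (Fin 4) (ZMod 2)) - (N : Matrix (Fin 4) (Fin 4) (ZMod 2))) *ᵥ w2 = 0 := by
      rw [Matrix.sub_mulVec, sub_eq_zero]; exact congrArg Prod.snd hMN
    have := rank_le_two h1 h2 h12 e1 e2
    omega
  have hbij : Function.Bijective Φ := by
    rw [Nat.bijective_iff_injective_and_card]
    refine ⟨hinj, ?_⟩
    rw [hcard, Nat.card_prod, Nat.card_eq_fintype_card]
    decide
  obtain ⟨i, hi⟩ := hY0
  rcases hi with hi | hi
  · obtain ⟨M, hM⟩ := hbij.2 (Pi.single i 1, 0)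
    have e1 : (M : Matrix (Fin 4) (Fin 4) (ZMod 2)) *ᵥ w1 = Pi.single i 1 := congrArg Prod.fst hM
    have e2 : (M : Matrix (Fin 4) (Fin 4) (ZMod 2)) *ᵥ w2 = 0 := congrArg Prod.snd hM
    have := hpairY M M.2
    rw [hpair, e1, e2] at this
    simp at this
    exact hi this
  · obtain ⟨M, hM⟩ := hbij.2 (0, Pi.single i 1)
    have e1 : (M : Matrix (Fin 4) (Fin 4) (ZMod 2)) *ᵥ w1 = 0 := congrArg Prod.fst hM
    have e2 : (M : Matrix (Fin 4) (Fin 4) (ZMod 2)) *ᵥ w2 = Pi.single i 1 := congrArg Prod.snd hM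
    have := hpairY M M.2
    rw [hpair, e1, e2] at this
    simp at this
    exact hi this

end Pool.Agent.X258.MRD
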